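import Pool.Agent.H9.UZ.Tar

/-!
# Module FB6 of the board uz_modules (MP_f6fd33_lc): coded reals are the names of kind 3
-/

set_option autoImplicit false
set_option linter.unusedVariables false

open Ordinal Order Set
open scoped ZFSet

namespace SE.UZ.H66FB6

open SF CAA SE.UZ

theorem n_lS {N : V → Prop} (k : ZFm N) {i : V} (hi : N i) : N (lS i) := by
  have h1 : Tm ZFm (fun _ v => lS (v 0)) :=
    (Tm.fst (Tm.snd (Tm.snd (Tm.var 0)))).congr fun M k v hv => rfl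
  exact h1.1 N k (fun _ => i) (fun _ => hi)

theorem w_prl {W : V → Prop} (k : ZFm W) {x y : V} (hx : W x) (hy : W y) : W (prl x y) := by
  have h1 : Tm ZFm (fun _ v => prl (v 0) (v 1)) :=
    (Tm.resS (f := fun _ _ => om) (g := fun _ v => ZFSet.pair (app (v 1) (v 0))
      (app (v 2) (v 0))) Tm.om (Tm.pair (Tm.app (Tm.var 1) (Tm.var 0))
      (Tm.app (Tm.var 2) (Tm.var 0)))).congr fun M k v hv => rfl
  exact h1.1 W k (cons x fun _ => y) (fun i => by cases i with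
    | zero => exact hx
    | succ n => exact hy)

theorem lY_eq (hBA : T_BA) {L i : V} (h : Gl L i) :
    lY i = sel (kd i = nS 3) (lZ i) (knm L (lS i) 0) := by
  have h1 := (hBA.1 (nS 0) (ZFSet.pair (kd i) (ZFSet.pair (tg i) (ZFSet.pair (tm i) (vw i))))
    (lS i) (sel (kd i = nS 3) (lZ i) (knm L (lS i) 0)) (lZ i) (knm L (lS i) 0)
    (knm L (lS i) 0)).2.2.2.1
  exact (congrArg lY h.eq).trans h1

theorem _root_.SE.UZ.pf_FB6 (hCC : T_CC) (hBA : T_BA) (hBK : T_BK) (hBL : T_BL) (hBO : T_BO) (hBJ : T_BJ)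
    (hAH : T_AH) : T_FB6 := by
  intro D κ hD ρ hNρ hCρ hg G hG
  have hN : ZFm D.N := hD.ok.zfc.toZFm
  have hW : ZFm (D.W G) := (((hBJ D hD.ok).2.2.2.2 ρ hNρ hCρ).2 G hG).1.1.toZFm
  have h0 : ∀ i ∈ ρ, (kd i = nS 3 → ev G (lY i) = ev G (lZ i)) ∧
      (kd i ≠ nS 3 → ev G (lY i) = kc 0) := by
    intro i hi
    have hNs : D.N (lS i) := n_lS hN (hN.trans _ hNρ _ hi)
    constructor
    · intro hk
      rw [lY_eq hBA (hg i hi), sel_pos hk]
    · intro hk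
      rw [lY_eq hBA (hg i hi), sel_neg hk]
      have hcs : Cld D.L (lS i) := ((hBA.2.2.2.2.2.2 D.L ρ hCρ).2.1 i hi).2.2.1
      have hsub : lS i ⊆ ρ := ((hBA.2.2.2.2.2.2 D.L ρ hCρ).2.1 i hi).2.1
      have hTr : Tr (lS i) := (hBA.2.2.2.2.2.2 D.L _ hcs).1
      have hGs : D.Gn (lS i) (gs G (lS i)) := ((hBL D hD.ok ρ G hNρ hCρ hG).2 _ hNs hsub hTr).1
      have h1 := (hBO D hD.ok (lS i) hNs hcs).2.2.2.1 0
      have h2 := (((hBK D hD.ok ρ G hNρ hCρ hG).1 (lS i) _ hNs hsub hTr h1.1 h1.2.1).2.2.2.2.2)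
        (lS i) (fun z hz => hz)
      rw [← h2]
      exact h1.2.2 _ hGs
  refine ⟨h0, fun z z' hWz hRz hWz' hRz' => ?_⟩
  have hWp := w_prl hW hWz hWz'
  have hRp := (hAH.1 z z' hRz hRz').1
  show Cod (D.W G) D.L (prl z z') ↔ _
  rw [hCC D hD.ok ρ G hNρ hCρ hG _ hWp hRp]
  constructor
  · rintro ⟨i, hi, h⟩
    by_cases hk : kd i = nS 3
    · exact ⟨i, hi, hk, by rw [h, (h0 i hi).1 hk]⟩
    · rw [(h0 i hi).2 hk] at h
      exact absurd h (hAH.2.2.2.2.2 z z' hRz hRz')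
  · rintro ⟨i, hi, hk, h⟩
    exact ⟨i, hi, by rw [(h0 i hi).1 hk, h]⟩

end SE.UZ.H66FB6
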