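import Pool.Agent.H9.UZ.Tar

/-!
# Module FB7 of the board uz_modules (MP_f6fd33_lc): absoluteness and truth in the first base system
-/

set_option autoImplicit false
set_option linter.unusedVariables false

open Ordinal Order Set
open scoped ZFSet

namespace SE.UZ.H66FB7

open SF CAA SE.UZ

theorem unpk {D : Cx} {C p a' x' : V}
    (h : Sb D (ZFSet.pair C (ZFSet.pair p (ZFSet.pair a' x')))) :
    p ∈ D.P C ∧ (D.N a' ∧ Nam D.L C a') ∧ (D.N x' ∧ Nam D.L C x') := by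
  obtain ⟨B, p', a'', x'', hB, hp', hna, hnx, he, hG'⟩ := h
  rw [ZFSet.pair_inj, ZFSet.pair_inj, ZFSet.pair_inj] at he
  obtain ⟨rfl, rfl, rfl, rfl⟩ := he
  exact ⟨hp', hna, hnx⟩

/-- truth of the secured facts over a smaller object -/
theorem key (hFB1 : T_FB1) (hFB2 : T_FB2) (hBJ : T_BJ) (hBL : T_BL) (hBK : T_BK) (hBA : T_BA)
    (hBC : T_BC) (hPCS : T_PCS) {D : Cx} {κ : V} (hD : Amb D κ) {b : BS} (hb : b = fbs D) {ρ C G : V}
    (hNρ : D.N ρ) (hCρ : Cld D.L ρ) (hG : D.Gn ρ G) (hC : CS D C) (hsub : C ⊆ ρ) {a x : V}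
    (ha : RR D C G a) (hx : RR D C G x) :
    b.Se C G a x ↔ ¬ SgH (D.W G) 2 a x := by
  have hNC : D.N C := (hBJ D hD.ok).2.2.1 C hC.h
  have hTr : Tr C := (hBA.2.2.2.2.2.2 D.L C hC.c).1
  have hBL' := (hBL D hD.ok ρ G hNρ hCρ hG).2 C hNC hsub hTr
  have hGC : D.Gn C (gs G C) := hBL'.1
  have hidem : gs (gs G C) C = gs G C := (hBL D hD.ok C (gs G C) hNC hC.c hGC).1
  have hBK' := (hBK D hD.ok ρ G hNρ hCρ hG).1 C
  have hev : ∀ Y, D.N Y → Nam D.L C Y → ev (gs G C) Y = ev G Y := fun Y hY hn =>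
    (hBK' Y hNC hsub hTr hY hn).2.2.2.2.2 C (fun z hz => hz)
  have hF2 := hFB2 D κ hD b hb
  -- replace the filter by its restriction
  have h1 : b.Se C G a x ↔ b.Se C (gs G C) a x := by
    constructor
    · rintro ⟨p, hp, a', x', hm, hea, hex⟩
      obtain ⟨hp', hna, hnx⟩ := unpk ((hF2.2.1 _).1 hm)
      refine ⟨p, ?_, a', x', hm, ?_, ?_⟩
      · rw [hBL'.2.2.2.1]
        exact ⟨hp, ((hBC.2.2.2.1 D.L C p).1 hp').2.1⟩
      · rw [hev a' hna.1 hna.2, hea]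
      · rw [hev x' hnx.1 hnx.2, hex]
    · rintro ⟨p, hp, a', x', hm, hea, hex⟩
      obtain ⟨hp', hna, hnx⟩ := unpk ((hF2.2.1 _).1 hm)
      refine ⟨p, hBL'.2.1 hp, a', x', hm, ?_, ?_⟩
      · rw [← hev a' hna.1 hna.2, hea]
      · rw [← hev x' hnx.1 hnx.2, hex]
  have h2 := hF2.2.2 C hC (gs G C) hGC a x
  have ha' : RR D C (gs G C) a := by
    unfold RR at ha ⊢
    rw [hidem]
    exact ha
  have hx' : RR D C (gs G C) x := by
    unfold RR at hx ⊢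
    rw [hidem]
    exact hx
  have hJ := (((hBJ D hD.ok).2.2.2.2 ρ hNρ hCρ).2 G hG).1
  have hJC := (((hBJ D hD.ok).2.2.2.2 C hNC hC.c).2 (gs G C) hGC).1
  have h3 := hPCS (D.W (gs G C)) (D.W G) hJC.1.toZFCm hJ.1.toZFCm hBL'.2.2.1
    (fun α h => (hJC.2.2.2.2 α).2 ((hJ.2.2.2.2 α).1 h)) a x ha.1 ha.2 hx.1 hx.2
  rw [h1, h2, h3]
  exact ⟨fun h => h.2.2, fun h => ⟨ha', hx', h⟩⟩

theorem _root_.SE.UZ.pf_FB7 (hFB1 : T_FB1) (hFB2 : T_FB2) (hFB3 : T_FB3) (hFB6 : T_FB6) (hPCS : T_PCS)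
    (hBJ : T_BJ) (hBL : T_BL) (hBK : T_BK) (hBA : T_BA) (hBC : T_BC) : T_FB7 := by
  intro D κ hD b hb
  obtain ⟨hOb, hu, hLe, hRi, hT, hNOb, hNU, hNle, hNRc, hNtr⟩ := hFB1 D κ hD b hb
  constructor
  · intro C B hCB G hG a x ha hx
    obtain ⟨hC, hB, hsub⟩ := (hLe C B).1 hCB
    rw [hu B hB] at hG
    rw [hu C hC] at ha hx
    have hNB : D.N B := (hBJ D hD.ok).2.2.1 B hB.h
    have hNC : D.N C := (hBJ D hD.ok).2.2.1 C hC.h
    have hTr : Tr C := (hBA.2.2.2.2.2.2 D.L C hC.c).1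
    have hBL' := (hBL D hD.ok B G hNB hB.c hG)
    have h1 := hBL'.2 C hNC hsub hTr
    have up : ∀ y, RR D C G y → RR D B G y := by
      rintro y ⟨hy, hr⟩
      refine ⟨?_, hr⟩
      rw [hBL'.1]
      exact h1.2.2.1 _ hy
    rw [key hFB1 hFB2 hBJ hBL hBK hBA hBC hPCS hD hb hNB hB.c hG hC hsub ha hx,
      key hFB1 hFB2 hBJ hBL hBK hBA hBC hPCS hD hb hNB hB.c hG hB (fun z hz => hz)
        (up a ha) (up x hx)]
  · intro F hF G hG
    have hF' : ∀ v ∈ κ, CS D (app F v) := fun v hv => (hOb _).1 (hF.o v hv)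
    obtain ⟨ρ, hρ, hmem⟩ := hFB3 D κ hD |>.2.2 κ F hD.kH hF.n hF'
    have hun : b.un κ F = ρ := by
      ext i
      rw [hmem i, BS.un, ZFSet.mem_sUnion]
      constructor
      · rintro ⟨y, hy, hiy⟩
        rw [mem_imS] at hy
        obtain ⟨v, hv, rfl⟩ := hy
        rw [hu _ (hF' v hv)] at hiy
        exact ⟨v, hv, hiy⟩
      · rintro ⟨v, hv, hi⟩
        refine ⟨b.u (app F v), mem_imS.2 ⟨v, hv, rfl⟩, ?_⟩
        rw [hu _ (hF' v hv)]
        exact hi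
    rw [hun] at hG ⊢
    have hNρ : D.N ρ := (hBJ D hD.ok).2.2.1 ρ hρ.h
    have hl : b.l = 3 := by rw [hb]; rfl
    constructor
    · intro ξ hξ a x ha hx
      have hC := hF' ξ hξ
      rw [hu _ hC] at ha hx
      have h := key hFB1 hFB2 hBJ hBL hBK hBA hBC hPCS hD hb hNρ hρ.c hG hC
        (fun i hi => (hmem i).2 ⟨ξ, hξ, hi⟩) ha hx
      rw [hl]
      exact h.symm
    · intro z z' hWz hRz hWz' hRz'
      rw [hl]
      exact (hFB6 D κ hD ρ hNρ hρ.c hρ.g G hG).2 z z' hWz hRz hWz' hRz'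

end SE.UZ.H66FB7
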