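import Pool.Agent.H75.UZ.TarKO

/-!
# Module KO7 of the board uz_modules (MP_f6fd33_lc): soundness of improvements
-/

set_option autoImplicit false
set_option linter.unusedVariables false

open Ordinal Order Set
open scoped ZFSet

namespace SE.UZ.H66KO7

open SF CAA SE.UZ

theorem ord_mem {α β γ : V} (h1 : IsOrd α) (h2 : IsOrd β) (h3 : IsOrd γ) (hs : α ⊆ β)
    (hm : β ∈ γ) : α ∈ γ := by
  obtain ⟨a, rfl⟩ := h1
  obtain ⟨b, rfl⟩ := h2
  obtain ⟨c, rfl⟩ := h3
  rw [toZFSet_subset_toZFSet_iff] at hs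
  rw [toZFSet_mem_toZFSet_iff] at hm ⊢
  exact hs.trans_lt hm

theorem nS_mem {i n : ℕ} (h : i < n) : nS i ∈ nS n := by
  unfold nS
  rw [toZFSet_mem_toZFSet_iff]
  exact_mod_cast h

theorem snd_hf (hA : T_AA) {z : V} (hz : z ∈ hf) : snd z ∈ hf := by
  by_cases h : ∃ x y, z = ZFSet.pair x y
  · obtain ⟨x, y, rfl⟩ := h
    rw [snd_pair]
    have h1 : ({x, y} : V) ∈ hf := hA.1 _ hz (by simp [ZFSet.pair])
    exact hA.1 _ h1 (by simp)
  · rw [snd_eq_of_not h]
    have := hA.2.1 0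
    rwa [nS_zero] at this

theorem empty_hf (hA : T_AA) : (∅ : V) ∈ hf := by
  have := hA.2.1 0
  rwa [nS_zero] at this

theorem rl_prl (hA : T_AA) {x y : V} (hx : Rl x) (hy : Rl y) : Rl (prl x y) :=
  isFunc_resS om hf _ fun n hn => hA.2.2.2.1 _ (app_mem hx hn) _ (app_mem hy hn)

theorem w_prl {W : V → Prop} (k : ZFm W) {x y : V} (hx : W x) (hy : W y) : W (prl x y) := by
  have h1 : Tm ZFm (fun _ v => prl (v 0) (v 1)) :=
    (Tm.resS (f := fun _ _ => om) (g := fun _ v => ZFSet.pair (app (v 1) (v 0))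
      (app (v 2) (v 0))) Tm.om (Tm.pair (Tm.app (Tm.var 1) (Tm.var 0))
      (Tm.app (Tm.var 2) (Tm.var 0)))).congr fun M k v hv => rfl
  exact h1.1 W k (cons x fun _ => y) (fun i => by cases i with
    | zero => exact hx
    | succ n => exact hy)

theorem to_sq {a z b : V} (h : b ∈ TO a z) : b ∈ sq := (ZFSet.mem_sep.1 h).1

theorem sq_hf {b : V} (h : b ∈ sq) : b ∈ hf := (ZFSet.mem_sep.1 h).1

theorem t_ko7 (h3 : T_KO3) (h4 : T_KO4) (hA : T_AA) (hK : T_KC) : T_KO7 := by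
  intro W kW e j hWe hWj hE a x hWa hRa hWx hRx y c y' w hM hWy' hRy' hWw hRw hI
  obtain ⟨n0, hn0⟩ := mem_om.1 hI.n
  obtain ⟨hOrd, hOff, hRk, -, -, hSig⟩ := h3
  have hC := hM.cp
  have hO : ∀ s, IsOrd (app c s) := hOrd _ _ hC
  have hrk := hRk _ _ hC
  have hz : app e ∅ = ZFSet.pair ∅ ∅ := hE.z
  have hap : ∀ n : ℕ, app e (nS n) ∈ hf := fun n => app_mem hE.fn (mem_om.2 ⟨n, rfl⟩)
  -- values of the collapse decrease along `Er`
  have hlt : ∀ t t', Er a x y t' t → app c t' ∈ app c t := fun t t' h =>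
    hrk.lt _ h.1 _ h.2.1 h.2.2
  -- the root
  have hroot : ∃ t0 ∈ hf, Rw j w ∅ t0 := by
    rcases Nat.eq_zero_or_pos n0 with h0 | h0
    · subst h0
      have hg : Gw j w ∅ = ∅ := by rw [hn0, nS_zero]
      have h1 := hI.l1 (by rw [hg, hz, fst_pair])
      rw [hg, hz, snd_pair] at h1
      exact ⟨_, sq_hf (to_sq h1.1.1), h1.2⟩
    · have h1 := hI.e1 ∅ (by rw [hn0, ← nS_zero]; exact nS_mem h0) (by rw [hz, fst_pair])
      rw [hz, snd_pair] at h1
      exact ⟨∅, empty_hf hA, h1⟩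
  obtain ⟨t0, ht0, hr0⟩ := hroot
  -- the tree of `(x, y')` has no descending sequence
  have hND : NoDes W (TO a (prl x y')) EO := by
    rintro ⟨s, hWs, hs, hdec⟩
    have hsT : ∀ n : ℕ, app s (nS n) ∈ TO a (prl x y') := fun n =>
      app_mem hs (mem_om.2 ⟨n, rfl⟩)
    have hEr : ∀ n : ℕ, Er a x y' (app s (nS (n + 1))) (app s (nS n)) := fun n =>
      ⟨hsT _, hsT _, hdec n⟩
    have hne : app s (nS 1) ≠ ∅ := by
      intro h
      have h1 := hdec 0
      rw [EO, ZFSet.mem_sep] at h1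
      have h2 := h1.2
      rw [fst_pair, snd_pair] at h2
      rw [zero_add, h] at h2
      apply h2.2
      symm
      rw [ZFSet.eq_empty]
      intro z hz
      exact ZFSet.notMem_empty z (h2.1 hz)
    have hEp : ZFSet.pair (app s (nS 1)) ∅ ∈ EO := h4.2.2 _ (to_sq (hsT 1)) hne
    have hR1 := hI.s ∅ (empty_hf hA) t0 ht0 (app s (nS 1)) (sq_hf (to_sq (hsT 1))) hr0
      ⟨hsT 1, h4.1 a (prl x y') hRa (rl_prl hA hRx hRy') _ _ hEp (hsT 1), hEp⟩
    have key : ∀ α : V, ∀ n : ℕ, ∀ t ∈ hf, Rw j w (app s (nS n)) t → app c t = α → False := by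
      intro α
      induction α using ZFSet.inductionOn with
      | _ α ih =>
        intro n t ht hr hα
        have h1 := hI.s (app s (nS n)) (sq_hf (to_sq (hsT n))) t ht (app s (nS (n + 1)))
          (sq_hf (to_sq (hsT (n + 1)))) hr (hEr n)
        refine ih (app c (CwK j w (app s (nS n)) t (app s (nS (n + 1))))) ?_ (n + 1) _
          (sq_hf (to_sq h1.1.1)) h1.2 rfl
        rw [← hα]
        exact hlt _ _ h1.1
    exact key _ 1 _ (sq_hf (to_sq hR1.1.1)) hR1.2 rfl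
  have hWp : W (prl x y') := w_prl kW.toZFm hWx hWy'
  have hRp : Rl (prl x y') := rl_prl hA hRx hRy'
  obtain ⟨c', hWc', hC'⟩ := (hSig W kW a (prl x y') hWa hRa hWp hRp).1
    ((hK.2.2.2 W kW.toZFm a (prl x y') hWa hRa hWp hRp).2 hND)
  have hO' : ∀ s, IsOrd (app c' s) := hOrd _ _ hC'
  -- simulations
  have hsim : ∀ α : V, ∀ u ∈ hf, ∀ t ∈ hf, Rw j w u t → app c' u = α → app c' u ⊆ app c t := by
    intro α
    induction α using ZFSet.inductionOn with
    | _ α ih =>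
      intro u hu t ht hr hα z hzu
      by_cases huT : u ∈ TO a (prl x y')
      · obtain ⟨u', hu', hE', rfl⟩ := (hC'.eq u huT z).1 hzu
        have h1 := hI.s u hu t ht u' (sq_hf (to_sq hu')) hr ⟨hu', huT, hE'⟩
        have h2 := ih (app c' u') (by rw [← hα]; exact hzu) u' (sq_hf (to_sq hu')) _
          (sq_hf (to_sq h1.1.1)) h1.2 rfl
        exact ord_mem (hO' u') (hO _) (hO t) h2 (hlt _ _ h1.1)
      · rw [hOff _ _ hC' u huT] at hzu
        exact absurd hzu (ZFSet.notMem_empty z)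
  refine ⟨c', ⟨hWy', hRy', hWc', hC'⟩, n0, ?_, ?_⟩
  · intro i hi
    have hmem : nS i ∈ Gw j w ∅ := by rw [hn0]; exact nS_mem hi
    by_cases hf1 : fst (app e (nS i)) = ∅
    · have h1 := hI.e1 (nS i) hmem hf1
      unfold Kv
      rw [sel_pos hf1, sel_pos hf1]
      exact hsim _ _ (snd_hf hA (hap i)) _ (snd_hf hA (hap i)) h1 rfl
    · have h1 := hI.e2 (nS i) hmem hf1
      unfold Kv
      rw [sel_neg hf1, sel_neg hf1, h1]
  · by_cases hf1 : fst (app e (nS n0)) = ∅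
    · have h1 := hI.l1 (by rw [hn0]; exact hf1)
      rw [hn0] at h1
      unfold Kv
      rw [sel_pos hf1, sel_pos hf1]
      have h2 := hsim _ _ (snd_hf hA (hap n0)) _ (sq_hf (to_sq h1.1.1)) h1.2 rfl
      exact ord_mem (hO' _) (hO _) (hO _) h2 (hlt _ _ h1.1)
    · have h1 := hI.l2 (by rw [hn0]; exact hf1)
      rw [hn0] at h1
      unfold Kv
      rw [sel_neg hf1, sel_neg hf1]
      exact h1

end SE.UZ.H66KO7
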