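import Pool.Agent.H75.UZ.TarKO

/-!
# Module KO9 of the board uz_modules (MP_f6fd33_lc): definability of `Kv` and `Imp`
-/

set_option autoImplicit false
set_option linter.unusedVariables false

open Ordinal Order Set
open scoped ZFSet

namespace SE.UZ.H66KO9

open SF CAA SE.UZ

variable {f g h f1 f2 : (V → Prop) → (ℕ → V) → V}

theorem tm_prl (hf : Tm ZFm f) (hg : Tm ZFm g) : Tm ZFm (fun M v => prl (f M v) (g M v)) := by
  refine Tm.at2 (F := fun _ x y => prl x y) ?_ hf hg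
  exact (Tm.resS (f := fun _ _ => om) (g := fun _ v => ZFSet.pair (app (v 1) (v 0))
    (app (v 2) (v 0))) Tm.om (Tm.pair (Tm.app (Tm.var 1) (Tm.var 0))
    (Tm.app (Tm.var 2) (Tm.var 0)))).congr fun M k v hv => rfl

theorem tm_to (hK : T_KC) (hf : Tm ZFm f) (hg : Tm ZFm g) (hh : Tm ZFm h) :
    Tm ZFm (fun M v => TO (f M v) (prl (g M v) (h M v))) :=
  Tm.at2 (F := fun _ x y => TO x y) hK.1 hf (tm_prl hg hh)

theorem tm_gw (hj : Tm ZFm f) (hw : Tm ZFm g) (hh : Tm ZFm h) :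
    Tm ZFm (fun M v => Gw (f M v) (g M v) (h M v)) :=
  Tm.app hw (Tm.app hj hh)

theorem df_rw (hj : Tm ZFm f) (hw : Tm ZFm g) (hu : Tm ZFm h) (ht : Tm ZFm f1) :
    Dfb ZFm (fun M v => Rw (f M v) (g M v) (h M v) (f1 M v)) :=
  Dfb.eq (tm_gw hj hw (Tm.pair Tm.empty (Tm.pair hu ht))) (Tm.nS 1)

theorem tm_cw (hj : Tm ZFm f) (hw : Tm ZFm g) (hu : Tm ZFm h) (ht : Tm ZFm f1)
    (hu' : Tm ZFm f2) : Tm ZFm (fun M v => CwK (f M v) (g M v) (h M v) (f1 M v) (f2 M v)) :=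
  tm_gw hj hw (Tm.pair (Tm.nS 1) (Tm.pair hu (Tm.pair ht hu')))

theorem df_er (hK : T_KC) (ha : Tm ZFm f) (hx : Tm ZFm g) (hy : Tm ZFm h) (hb : Tm ZFm f1)
    (hc : Tm ZFm f2) :
    Dfb ZFm (fun M v => Er (f M v) (g M v) (h M v) (f1 M v) (f2 M v)) :=
  (Dfb.mem hb (tm_to hK ha hx hy)).and ((Dfb.mem hc (tm_to hK ha hx hy)).and
    (Dfb.pairMem hb hc hK.2.1))

theorem imp_iff (e j a x y y' w : V) : Imp e j a x y y' w ↔
    Gw j w ∅ ∈ om ∧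
    (∀ u ∈ hf, ∀ t ∈ hf, ∀ u' ∈ hf, Rw j w u t → Er a x y' u' u →
      Er a x y (CwK j w u t u') t ∧ Rw j w u' (CwK j w u t u')) ∧
    (∀ i ∈ Gw j w ∅, fst (app e i) = ∅ → Rw j w (snd (app e i)) (snd (app e i))) ∧
    (∀ i ∈ Gw j w ∅, ¬ fst (app e i) = ∅ → app y' (snd (app e i)) = app y (snd (app e i))) ∧
    (fst (app e (Gw j w ∅)) = ∅ →
      Er a x y (Gw j w (ZFSet.pair (nS 2) ∅)) (snd (app e (Gw j w ∅))) ∧
        Rw j w (snd (app e (Gw j w ∅))) (Gw j w (ZFSet.pair (nS 2) ∅))) ∧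
    (¬ fst (app e (Gw j w ∅)) = ∅ →
      app j (app y' (snd (app e (Gw j w ∅)))) ∈ app j (app y (snd (app e (Gw j w ∅))))) :=
  ⟨fun h => ⟨h.n, h.s, h.e1, h.e2, h.l1, h.l2⟩,
    fun h => ⟨h.1, h.2.1, h.2.2.1, h.2.2.2.1, h.2.2.2.2.1, h.2.2.2.2.2⟩⟩

theorem t_ko9 (hA : T_AA) (hK : T_KC) : T_KO9 := by
  have hH : Tm ZFm (fun _ _ => hf) := hA.2.2.2.2.2.2.2.1
  constructor
  · exact Tm.sel (Dfb.eq (Tm.fst (Tm.app (Tm.var 0) (Tm.var 4))) Tm.empty)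
      (Tm.app (Tm.var 3) (Tm.snd (Tm.app (Tm.var 0) (Tm.var 4))))
      (Tm.app (Tm.var 1) (Tm.app (Tm.var 2) (Tm.snd (Tm.app (Tm.var 0) (Tm.var 4)))))
  · have hG : Tm ZFm (fun _ v => Gw (v 1) (v 6) ∅) := tm_gw (Tm.var 1) (Tm.var 6) Tm.empty
    have h1 : Dfb ZFm (fun _ v => Gw (v 1) (v 6) ∅ ∈ om) := Dfb.mem hG Tm.om
    have h2 : Dfb ZFm (fun _ v => ∀ u ∈ hf, ∀ t ∈ hf, ∀ u' ∈ hf, Rw (v 1) (v 6) u t →
        Er (v 2) (v 3) (v 5) u' u → Er (v 2) (v 3) (v 4) (CwK (v 1) (v 6) u t u') t ∧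
          Rw (v 1) (v 6) u' (CwK (v 1) (v 6) u t u')) := by
      refine (Dfb.ball (R := fun _ v => ∀ t ∈ hf, ∀ u' ∈ hf, Rw (v 2) (v 7) (v 0) t →
        Er (v 3) (v 4) (v 6) u' (v 0) → Er (v 3) (v 4) (v 5) (CwK (v 2) (v 7) (v 0) t u') t ∧
          Rw (v 2) (v 7) u' (CwK (v 2) (v 7) (v 0) t u')) ktr_zfm hH ?_).congr
        fun M k v hv => Iff.rfl
      refine (Dfb.ball (R := fun _ v => ∀ u' ∈ hf, Rw (v 3) (v 8) (v 1) (v 0) →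
        Er (v 4) (v 5) (v 7) u' (v 1) →
        Er (v 4) (v 5) (v 6) (CwK (v 3) (v 8) (v 1) (v 0) u') (v 0) ∧
          Rw (v 3) (v 8) u' (CwK (v 3) (v 8) (v 1) (v 0) u')) ktr_zfm hH ?_).congr
        fun M k v hv => Iff.rfl
      refine (Dfb.ball (R := fun _ v => Rw (v 4) (v 9) (v 2) (v 1) →
        Er (v 5) (v 6) (v 8) (v 0) (v 2) →
        Er (v 5) (v 6) (v 7) (CwK (v 4) (v 9) (v 2) (v 1) (v 0)) (v 1) ∧
          Rw (v 4) (v 9) (v 0) (CwK (v 4) (v 9) (v 2) (v 1) (v 0))) ktr_zfm hH ?_).congr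
        fun M k v hv => Iff.rfl
      have hC : Tm ZFm (fun _ v => CwK (v 4) (v 9) (v 2) (v 1) (v 0)) :=
        tm_cw (Tm.var 4) (Tm.var 9) (Tm.var 2) (Tm.var 1) (Tm.var 0)
      exact (df_rw (Tm.var 4) (Tm.var 9) (Tm.var 2) (Tm.var 1)).imp
        ((df_er hK (Tm.var 5) (Tm.var 6) (Tm.var 8) (Tm.var 0) (Tm.var 2)).imp
          ((df_er hK (Tm.var 5) (Tm.var 6) (Tm.var 7) hC (Tm.var 1)).and
            (df_rw (Tm.var 4) (Tm.var 9) (Tm.var 0) hC)))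
    have h3 : Dfb ZFm (fun _ v => ∀ i ∈ Gw (v 1) (v 6) ∅, fst (app (v 0) i) = ∅ →
        Rw (v 1) (v 6) (snd (app (v 0) i)) (snd (app (v 0) i))) := by
      refine (Dfb.ball (R := fun _ v => fst (app (v 1) (v 0)) = ∅ →
        Rw (v 2) (v 7) (snd (app (v 1) (v 0))) (snd (app (v 1) (v 0)))) ktr_zfm hG ?_).congr
        fun M k v hv => Iff.rfl
      have hS : Tm ZFm (fun _ v => snd (app (v 1) (v 0))) := Tm.snd (Tm.app (Tm.var 1) (Tm.var 0))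
      exact (Dfb.eq (Tm.fst (Tm.app (Tm.var 1) (Tm.var 0))) Tm.empty).imp
        (df_rw (Tm.var 2) (Tm.var 7) hS hS)
    have h4 : Dfb ZFm (fun _ v => ∀ i ∈ Gw (v 1) (v 6) ∅, ¬ fst (app (v 0) i) = ∅ →
        app (v 5) (snd (app (v 0) i)) = app (v 4) (snd (app (v 0) i))) := by
      refine (Dfb.ball (R := fun _ v => ¬ fst (app (v 1) (v 0)) = ∅ →
        app (v 6) (snd (app (v 1) (v 0))) = app (v 5) (snd (app (v 1) (v 0)))) ktr_zfm hG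
        ?_).congr fun M k v hv => Iff.rfl
      have hS : Tm ZFm (fun _ v => snd (app (v 1) (v 0))) := Tm.snd (Tm.app (Tm.var 1) (Tm.var 0))
      exact (Dfb.eq (Tm.fst (Tm.app (Tm.var 1) (Tm.var 0))) Tm.empty).not.imp
        (Dfb.eq (Tm.app (Tm.var 6) hS) (Tm.app (Tm.var 5) hS))
    have hE : Tm ZFm (fun _ v => app (v 0) (Gw (v 1) (v 6) ∅)) := Tm.app (Tm.var 0) hG
    have hF : Dfb ZFm (fun _ v => fst (app (v 0) (Gw (v 1) (v 6) ∅)) = ∅) :=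
      Dfb.eq (Tm.fst hE) Tm.empty
    have h2e : Tm ZFm (fun _ v => Gw (v 1) (v 6) (ZFSet.pair (nS 2) ∅)) :=
      tm_gw (Tm.var 1) (Tm.var 6) (Tm.pair (Tm.nS 2) Tm.empty)
    have h5 := hF.imp ((df_er hK (Tm.var 2) (Tm.var 3) (Tm.var 4) h2e (Tm.snd hE)).and
      (df_rw (Tm.var 1) (Tm.var 6) (Tm.snd hE) h2e))
    have h6 := hF.not.imp (Dfb.mem (Tm.app (Tm.var 1) (Tm.app (Tm.var 5) (Tm.snd hE)))
      (Tm.app (Tm.var 1) (Tm.app (Tm.var 4) (Tm.snd hE))))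
    refine (h1.and (h2.and (h3.and (h4.and (h5.and h6))))).congr fun M k v hv => ?_
    exact (imp_iff (v 0) (v 1) (v 2) (v 3) (v 4) (v 5) (v 6)).symm

end SE.UZ.H66KO9
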